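import Mathlib
import Pool.Agent.Q293.LatticeForm

/-!
# The local time variational problem: non-uniqueness of the maximiser in every dimension `d ≥ 2`
-/

set_option autoImplicit false

open Finset Filter Topology
open Q293.LatticeForm

namespace Pool.Agent.Results.MP_840660_pr.TwoMaximisers

/-- a point of the coordinate plane -/
def pt (d : ℕ) (v : ℤ × ℤ) : Pt d := fun i => if i.1 = 0 then v.1 else if i.1 = 1 then v.2 else 0

lemma adj_pt {d : ℕ} (hd : 2 ≤ d) (u v : ℤ × ℤ) :
    Adj (pt d u) (pt d v) ↔ |u.1 - v.1| + |u.2 - v.2| = 1 := by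
  obtain ⟨m, rfl⟩ : ∃ m, d = m + 2 := ⟨d - 2, by omega⟩
  unfold Adj
  rw [Fin.sum_univ_succ, Fin.sum_univ_succ]
  have h : ∑ i : Fin m, |pt (m + 2) u i.succ.succ - pt (m + 2) v i.succ.succ| = 0 := by
    apply Finset.sum_eq_zero
    intro i _
    simp [pt]
  rw [h, add_zero]
  simp [pt]

lemma pt_inj {d : ℕ} (hd : 2 ≤ d) (u v : ℤ × ℤ) : pt d u = pt d v ↔ u = v := by
  constructor
  · intro h
    have h0 := congrFun h ⟨0, by omega⟩
    have h1 := congrFun h ⟨1, by omega⟩
    simp [pt] at h0 h1
    exact Prod.ext h0 h1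
  · rintro rfl; rfl

open Classical in
/-- occupation density of one period of a walk -/
noncomputable def dens {d : ℕ} (p : ℕ) (w : ℕ → Pt d) (x : Pt d) : ℝ :=
  ∑ i ∈ range p, if w i = x then (1 / p : ℝ) else 0

lemma dens_mem {d : ℕ} (p : ℕ) (hp : 0 < p) (w : ℕ → Pt d) (hper : ∀ i, w (i + p) = w i)
    (hadj : ∀ i, Adj (w i) (w (i + 1))) : dens p w ∈ calF d := by
  classical
  have hp' : (p : ℝ) ≠ 0 := by positivity
  refine ⟨?_, ?_, fun k => p * (k + 1), fun _ => w, ?_, fun k i _ => hadj i, ?_⟩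
  · intro x
    unfold dens
    apply Finset.sum_nonneg
    intro i _
    split_ifs
    · positivity
    · exact le_rfl
  · unfold dens
    have h : HasSum (fun x : Pt d => ∑ i ∈ range p, if w i = x then (1 / p : ℝ) else 0)
        (∑ i ∈ range p, (1 / p : ℝ)) := by
      apply hasSum_sum
      intro i _
      exact hasSum_ite_eq' _ _
    have h1 : ∑ i ∈ range p, (1 / p : ℝ) = 1 := by
      rw [Finset.sum_const, card_range, nsmul_eq_mul]
      field_simp
    rw [h1] at h
    exact h
  · apply tendsto_atTop_mono (fun k => ?_) tendsto_id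
    simp only [id]
    nlinarith
  · intro x
    have hmul : ∀ k, w (p * k) = w 0 := by
      intro k
      induction k with
      | zero => rfl
      | succ k ih => rw [Nat.mul_succ, hper, ih]
    have hshift : ∀ k i, w (p * k + i) = w i := by
      intro k i
      induction k with
      | zero => simp
      | succ k ih =>
        rw [Nat.mul_succ, show p * k + p + i = p * k + i + p by ring, hper, ih]
    have hsum : ∀ k, ∑ i ∈ range (p * k), (if w i = x then (1 : ℝ) else 0)
        = k * ∑ i ∈ range p, (if w i = x then (1 : ℝ) else 0) := by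
      intro k
      induction k with
      | zero => simp
      | succ k ih =>
        rw [Nat.mul_succ, Finset.sum_range_add, ih]
        simp_rw [hshift]
        push_cast
        ring
    have hval : ∀ k, corrected (p * (k + 1)) w x / ((p * (k + 1) : ℕ) : ℝ) = dens p w x := by
      intro k
      unfold corrected localTime dens
      rw [Finset.card_filter]
      push_cast
      rw [Finset.sum_range_succ]
      have h2 := hsum (k + 1)
      rw [h2, hmul]
      have h3 : ∑ i ∈ range p, (if w i = x then (1 / p : ℝ) else 0)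
          = (1 / p) * ∑ i ∈ range p, (if w i = x then (1 : ℝ) else 0) := by
        rw [Finset.mul_sum]
        apply Finset.sum_congr rfl
        intro i _
        split_ifs <;> simp
      rw [h3]
      have h4 : ((k : ℝ) + 1) ≠ 0 := by positivity
      push_cast
      split_ifs
      · field_simp
        ring
      · field_simp
        ring
    simp_rw [hval]
    exact tendsto_const_nhds

/-- integer version of the matrix -/
def M (u v : ℤ × ℤ) : ℤ := if u = v then -1 else if |u.1 - v.1| + |u.2 - v.2| = 1 then 1 else 0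

lemma F_pt {d : ℕ} (hd : 2 ≤ d) (β : ℝ) (u v : ℤ × ℤ) :
    F β (β * (2 * d)) (pt d u) (pt d v) = β * M u v := by
  have hd' : (2 * d : ℝ) ≠ 0 := by positivity
  unfold F M
  rw [mul_div_cancel_right₀ _ hd']
  simp only [pt_inj hd, adj_pt hd]
  split_ifs <;> simp

lemma form_dens {d : ℕ} (hd : 2 ≤ d) (β : ℝ) (p : ℕ) (v : ℕ → ℤ × ℤ) :
    form β (β * (2 * d)) (dens p fun i => pt d (v i))
      = β / p ^ 2 * ((∑ i ∈ range p, ∑ j ∈ range p, M (v i) (v j) : ℤ) : ℝ) := by
  classical
  have h := (form_sum β (β * (2 * d)) (range p) (1 / p : ℝ) (fun i => pt d (v i))).tsum_eq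
  unfold form
  have h2 : ∑' q : Pt d × Pt d, dens p (fun i => pt d (v i)) q.1 * F β (β * (2 * d)) q.1 q.2
      * dens p (fun i => pt d (v i)) q.2
      = ∑ i ∈ range p, ∑ j ∈ range p, (1 / p : ℝ) * F β (β * (2 * d)) (pt d (v i)) (pt d (v j)) * (1 / p) := by
    rw [← h]
    rfl
  rw [h2]
  push_cast
  rw [Finset.mul_sum]
  apply Finset.sum_congr rfl
  intro i _
  rw [Finset.mul_sum]
  apply Finset.sum_congr rfl
  intro j _
  rw [F_pt hd]
  field_simp

/-- once around a unit square -/
def v4 (i : ℕ) : ℤ × ℤ :=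
  if i % 4 = 0 then (0, 0) else if i % 4 = 1 then (1, 0) else if i % 4 = 2 then (1, 1) else (0, 1)

/-- once around the left square, then once around the right square of a `3 × 2` block -/
def v8 (i : ℕ) : ℤ × ℤ :=
  if i % 8 = 0 then (1, 0) else if i % 8 = 1 then (0, 0) else if i % 8 = 2 then (0, 1)
  else if i % 8 = 3 then (1, 1) else if i % 8 = 4 then (1, 0) else if i % 8 = 5 then (2, 0)
  else if i % 8 = 6 then (2, 1) else (1, 1)

lemma v4_sum : ∑ i ∈ range 4, ∑ j ∈ range 4, M (v4 i) (v4 j) = 4 := by decide +kernel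

lemma v8_sum : ∑ i ∈ range 8, ∑ j ∈ range 8, M (v8 i) (v8 j) = 16 := by decide +kernel

lemma v4_adj (i : ℕ) : |(v4 i).1 - (v4 (i + 1)).1| + |(v4 i).2 - (v4 (i + 1)).2| = 1 := by
  have h : i % 4 = 0 ∨ i % 4 = 1 ∨ i % 4 = 2 ∨ i % 4 = 3 := by omega
  rcases h with h | h | h | h <;> simp [v4, Nat.add_mod, h]

lemma v8_adj (i : ℕ) : |(v8 i).1 - (v8 (i + 1)).1| + |(v8 i).2 - (v8 (i + 1)).2| = 1 := by
  have h : i % 8 = 0 ∨ i % 8 = 1 ∨ i % 8 = 2 ∨ i % 8 = 3 ∨ i % 8 = 4 ∨ i % 8 = 5 ∨ i % 8 = 6
    ∨ i % 8 = 7 := by omega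
  rcases h with h | h | h | h | h | h | h | h <;> simp [v8, Nat.add_mod, h]

/-- **MP_840660_pr, Q1 (disproved, in every dimension).**  For every `d ≥ 2` and every `β > 0`,
with `γ = 2 d β`, there are two maximisers that are not equal up to a lattice isometry. -/
theorem result (d : ℕ) (hd : 2 ≤ d) (β γ : ℝ) (hβ : 0 < β) (hγ : γ = 2 * d * β) :
    β < γ ∧ ∃ f f' : Pt d → ℝ, IsMaximiser β γ f ∧ IsMaximiser β γ f' ∧ ¬ Equivalent f f' := by
  have hγ' : γ = β * (2 * d) := by rw [hγ]; ring
  have hd1 : (2 : ℝ) ≤ d := by exact_mod_cast hd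
  have hd' : (2 * d : ℝ) ≠ 0 := by positivity
  refine ⟨by rw [hγ']; nlinarith, dens 4 (fun i => pt d (v4 i)), dens 8 (fun i => pt d (v8 i)),
    ⟨?_, ?_⟩, ⟨?_, ?_⟩, ?_⟩
  · apply dens_mem 4 (by norm_num)
    · intro i
      simp only [v4, Nat.add_mod_right]
    · intro i
      exact (adj_pt hd _ _).2 (v4_adj i)
  · intro g hg
    have h1 := form_le hβ.le hd' hg
    rw [hγ', form_dens hd β 4 v4, v4_sum]
    norm_num
    linarith
  · apply dens_mem 8 (by norm_num)
    · intro i
      simp only [v8, Nat.add_mod_right]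
    · intro i
      exact (adj_pt hd _ _).2 (v8_adj i)
  · intro g hg
    have h1 := form_le hβ.le hd' hg
    rw [hγ', form_dens hd β 8 v8, v8_sum]
    norm_num
    linarith
  · classical
    rintro ⟨π, s, z, -, h⟩
    have h1 := h (pt d (0, 0))
    have h8 : dens 8 (fun i => pt d (v8 i)) (pt d (0, 0)) = 1 / 8 := by
      unfold dens
      simp only [pt_inj hd]
      rw [Finset.sum_eq_single 1]
      · simp [v8]
      · intro i hi hi1
        have hv : ∀ i < 8, v8 i = (0, 0) → i = 1 := by decide
        rw [Finset.mem_range] at hi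
        rw [if_neg]
        exact fun h => hi1 (hv i hi h)
      · simp
    rw [h8] at h1
    -- the other density is a multiple of 1/4
    have h4 : ∀ x, ∃ m : ℕ, dens 4 (fun i => pt d (v4 i)) x = m / 4 := by
      intro x
      refine ⟨((range 4).filter fun i => pt d (v4 i) = x).card, ?_⟩
      unfold dens
      rw [Finset.card_filter]
      push_cast
      rw [Finset.sum_div]
      apply Finset.sum_congr rfl
      intro i _
      split_ifs <;> simp
    obtain ⟨m, hm⟩ := h4 (fun i => s i * pt d (0, 0) (π i) + z i)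
    rw [hm] at h1
    have h2 : (1 : ℝ) = 2 * m := by linarith
    have h3 : (1 : ℕ) = 2 * m := by exact_mod_cast h2
    omega

end Pool.Agent.Results.MP_840660_pr.TwoMaximisers
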